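import Pool.Agent.Lib.MP_9f7b43_nt.B.Cur
import Pool.Agent.Lib.MP_9f7b43_nt.L.Diag

/-!
# MP_9f7b43_nt, bridge: `GRecover → LFine → LStmt → LCurve`
-/

namespace MP9f7b43

open MvPolynomial C31 Filter Topology MP9f7b43.L

theorem adjC_one' {R : Type*} [CommRing R] : adjC (1 : Cub R) = 1 := by
  ext <;> simp [adjC]

/-- The trace formula from the coordinates. -/
theorem tr_of_xJ (y : Idx → ℚ) (a : Fin 4 → Cub ℚ) (ha : a 3 = 1)
    (hJ : ∀ J, 6 * y J = y (diagIdx 3) * xJ a J) (k : Fin 4) (l : Fin 3) :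
    Cub.tr (Cub.rho ℚ ^ (l : ℕ) * a k) * y (diagIdx 3) = 3 * y ![(k, l), (3, 0), (3, 0)] := by
  have h := hJ (recIdx 3 k l)
  rw [xJ_recIdx, ha, adjC_one', mul_one] at h
  have h2 : y (recIdx 3 k l) = y ![(k, l), (3, 0), (3, 0)] := rfl
  rw [h2] at h
  linarith

theorem comp_eq_eK (a : Cub ℚ) (s : Fin 3) (p : I9 → ℚ) (j : Fin 3)
    (hp : ∀ l, p (j, l) = cmp a l) : comp (rt s) p j = eK s a := by
  unfold L.comp
  rw [Fin.sum_univ_three, hp, hp, hp]
  change _ = emb (Rat.castHom ℂ) s a
  rw [emb_apply]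
  simp [cmp]

theorem eq_of_cmp {a b : Cub ℚ} (h : ∀ l, cmp a l = cmp b l) : a = b := by
  ext
  · exact h 0
  · exact h 1
  · exact h 2

theorem Faff_eq (u v z : ℂ) : Faff u v z = C31.F u v z 1 := by
  unfold Faff C31.F
  ring

/-- THE BRIDGE. -/
theorem bridge (hG : GRecover) (hF : LFine) (hL : L.LStmt) : LCurve := by
  intro V hle hdim
  by_contra hcon
  rw [not_lt] at hcon
  obtain ⟨y, hinj, hmem, hlim, hcrit⟩ := diag V.points PX 6 (by norm_num)
    (by exact_mod_cast hcon)
  obtain ⟨c, B, d0, hc, hB, hd0, hfine⟩ := hF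
  have hX : ∀ n, y n ∈ XI.points := fun n g hg => hmem n g (hle hg)
  have hne : ∀ᶠ n in atTop, y n ≠ PX := by
    by_cases h : ∃ m, y m = PX
    · obtain ⟨m, hm⟩ := h
      filter_upwards [eventually_gt_atTop m] with n hn h2
      exact hn.ne' (hinj (h2.trans hm.symm))
    · exact Eventually.of_forall fun n h2 => h ⟨n, h2⟩
  obtain ⟨n0, hn0⟩ := eventually_atTop.mp (hne.and (hlim.eventually_lt_const hd0))
  set w : ℕ → Projectivization ℚ (Idx → ℚ) := fun n => y (n + n0) with hw
  have hwlim : Tendsto (fun n => chordal PX (w n)) atTop (𝓝 0) :=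
    (tendsto_add_atTop_iff_nat (f := fun n => chordal PX (y n)) n0).mpr hlim
  have hwcrit : ∀ ε : ℝ, 0 < ε → ∀ᶠ n in atTop,
      chordal PX (w n) ^ (6 + ε) * (w n).mulHeight ≤ 1 := by
    intro ε hε
    exact (tendsto_add_atTop_nat n0).eventually (hcrit ε hε)
  have hf := fun n => hfine (w n) (hX _) (hn0 (n + n0) (Nat.le_add_left _ _)).1
    (hn0 (n + n0) (Nat.le_add_left _ _)).2
  choose hpos a D hD ha3 hFF hrep hJ hint hest hH using hf
  have h3 : (X (diagIdx 3) : MvPolynomial Idx ℚ) ∉ V.ideal := by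
    intro h
    have h1 := hmem (0 + n0) _ h
    rw [eval_X] at h1
    exact hrep 0 h1
  obtain ⟨L, iF, iA, x, hcf, hrel⟩ := funField hG V hle hdim h3
  set p : ℕ → I9 → ℚ := fun n i => cmp (a n i.1.castSucc) i.2 with hp
  have hspec : Specs x p := by
    refine ⟨?_, ?_⟩
    · intro n m hnm
      have h1 : a n = a m := by
        funext k
        by_cases hk : k = 3
        · rw [hk, ha3, ha3]
        · have hk' : k = Fin.castSucc ⟨k.1, by
            have := k.2
            have h2 : k.1 ≠ 3 := fun h3 => hk (Fin.ext h3)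
            omega⟩ := Fin.ext rfl
          rw [hk']
          exact eq_of_cmp fun l => congrFun hnm (_, l)
      have h2 : w n = w m := by
        rw [← Projectivization.mk_rep (w n), ← Projectivization.mk_rep (w m),
          Projectivization.mk_eq_mk_iff']
        refine ⟨(w n).rep (diagIdx 3) / (w m).rep (diagIdx 3), ?_⟩
        funext J
        have e1 := hJ n J
        have e2 := hJ m J
        rw [h1] at e1
        have e3 := hrep m
        rw [Pi.smul_apply, smul_eq_mul]
        field_simp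
        have e4 : 6 * ((w n).rep (diagIdx 3) * (w m).rep J) =
            6 * ((w n).rep J * (w m).rep (diagIdx 3)) := by
          linear_combination (w n).rep (diagIdx 3) * e2 - (w m).rep (diagIdx 3) * e1
        linarith
      have h4 := hinj h2
      omega
    · intro g hg n
      refine hrel g hg (w n).rep (fun f hf => rep_aeval_eq_zero V (hmem _) f hf) (hrep n) (p n) ?_
      intro i
      rw [recA_eq (w n).rep (a n i.1.castSucc) i.1.castSucc
        (fun l => tr_of_xJ (w n).rep (a n) (ha3 n) (hJ n) _ l), cmp_C_mul]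
  have hu : ∀ n s, comp (rt s) (p n) 0 = eK s (a n 0) := fun n s =>
    comp_eq_eK (a n 0) s (p n) 0 fun l => rfl
  have hv : ∀ n s, comp (rt s) (p n) 1 = eK s (a n 1) := fun n s =>
    comp_eq_eK (a n 1) s (p n) 1 fun l => rfl
  have hz : ∀ n s, comp (rt s) (p n) 2 = eK s (a n 2) := fun n s =>
    comp_eq_eK (a n 2) s (p n) 2 fun l => rfl
  have hmax : ∀ n s, max (max ‖eK s (a n 0)‖ ‖eK s (a n 1)‖) 1 ≤
      chordal PX (w n) / c * ‖eK s (a n 2)‖ := by
    intro n s
    have h := (hest n s).2.2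
    rw [div_mul_eq_mul_div, le_div_iff₀ hc]
    linarith
  refine hL rt rt_cube rt_injective L x p (fun n => 69 * D n) (fun n => chordal PX (w n) / c)
    hcf hspec (fun n => Nat.mul_pos (by norm_num) (hD n)) ?_ (fun n => div_pos (hpos n) hc) ?_ ?_
    ?_ ?_ ?_ ?_
  · intro n i
    obtain ⟨m, hm⟩ := hint n i.1.castSucc
    refine ⟨cmp m i.2, ?_⟩
    have h1 : cmp (Cub.C (69 * D n : ℚ) * a n i.1.castSucc) i.2 =
        (69 * D n : ℚ) * cmp (a n i.1.castSucc) i.2 := cmp_C_mul _ _ _
    have h2 : cmp (Cub.map (Int.castRingHom ℚ) m) i.2 = Int.castRingHom ℚ (cmp m i.2) :=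
      cmp_map _ _ _
    rw [hm, h2] at h1
    push_cast
    simpa using h1.symm
  · have := hwlim.div_const c
    simpa using this
  · intro n s
    rw [hu, hv, hz, Faff_eq]
    have h := congrArg (eK s) (hFF n)
    unfold FF at h
    rw [map_F, map_zero, ha3, map_one] at h
    exact h
  · intro n s
    rw [hz]
    exact le_trans (le_max_right _ _) (hmax n s)
  · intro n s
    rw [hz, hu]
    exact le_trans (le_trans (le_max_left _ _) (le_max_left _ _)) (hmax n s)
  · intro n s
    rw [hz, hv]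
    exact le_trans (le_trans (le_max_right _ _) (le_max_left _ _)) (hmax n s)
  · intro ε hε
    -- the critical inequality
    have hK : 0 < c ^ (6 + ε) * c / 69 := by positivity
    have h0 : Tendsto (fun n => chordal PX (w n) ^ (ε / 2)) atTop (𝓝 0) := by
      have := (Real.continuousAt_rpow_const 0 (ε / 2) (Or.inr (by positivity))).tendsto.comp hwlim
      rw [Real.zero_rpow (by positivity)] at this
      exact this
    filter_upwards [hwcrit (ε / 2) (by positivity), h0.eventually_lt_const hK] with n hn1 hn2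
    have e1 : ((69 * D n : ℕ) : ℝ) * ∏ s, ‖comp (rt s) (p n) 2‖ ≤ 69 / c * (w n).mulHeight := by
      have h := hH n
      simp only [hz]
      push_cast
      have e2 : (69 : ℝ) * (D n : ℝ) * ∏ s, ‖eK s (a n 2)‖ =
          69 / c * (c * (D n : ℝ) * ∏ s, ‖eK s (a n 2)‖) := by
        field_simp
      rw [e2]
      exact mul_le_mul_of_nonneg_left h (by positivity)
    have hd := hpos n
    have e3 : (chordal PX (w n) / c) ^ (6 + ε) =
        chordal PX (w n) ^ (ε / 2) * chordal PX (w n) ^ (6 + ε / 2) / c ^ (6 + ε) := by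
      rw [Real.div_rpow hd.le hc.le, ← Real.rpow_add hd]
      congr 2
      ring
    have hcp : 0 < c ^ (6 + ε) := Real.rpow_pos_of_pos hc _
    calc (chordal PX (w n) / c) ^ (6 + ε) *
          (((69 * D n : ℕ) : ℝ) * ∏ s, ‖comp (rt s) (p n) 2‖)
        ≤ (chordal PX (w n) / c) ^ (6 + ε) * (69 / c * (w n).mulHeight) :=
          mul_le_mul_of_nonneg_left e1 (by positivity)
      _ = chordal PX (w n) ^ (ε / 2) * (69 / (c * c ^ (6 + ε))) *
          (chordal PX (w n) ^ (6 + ε / 2) * (w n).mulHeight) := by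
          rw [e3]
          field_simp
      _ ≤ chordal PX (w n) ^ (ε / 2) * (69 / (c * c ^ (6 + ε))) * 1 :=
          mul_le_mul_of_nonneg_left hn1 (by positivity)
      _ ≤ (c ^ (6 + ε) * c / 69) * (69 / (c * c ^ (6 + ε))) * 1 := by
          gcongr
      _ = 1 := by
          field_simp

end MP9f7b43
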