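import Pool.Agent.Lib.MP_9f7b43_nt.B.Fun

/-!
# MP_9f7b43_nt, bridge: the function field of a curve in `X`, main statement
-/

namespace MP9f7b43

open MvPolynomial C31 MP9f7b43.L

section

variable (V : ProjVar Idx) (E : Type) [Field E] [Algebra ℚ E] [Algebra (CR V) E]
  [IsScalarTower ℚ (CR V) E] [IsFractionRing (CR V) E]

/-- The recovered generic point of `V`. -/
structure GenPt where
  a : Fin 4 → Cub E
  a3 : a 3 = 1
  xJ_eq : ∀ J, 6 * xE V E J = xE V E (diagIdx 3) * xJ a J
  rel : ∀ i : I9, cmp (recA (xE V E) 3 i.1.castSucc) i.2 =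
    23 * xE V E (diagIdx 3) * cmp (a i.1.castSucc) i.2

theorem exists_genPt (hG : GRecover) (hle : XI.ideal ≤ V.ideal)
    (h3 : (X (diagIdx 3) : MvPolynomial Idx ℚ) ∉ V.ideal) : Nonempty (GenPt V E) := by
  have hT : xE V E (diagIdx 3) ≠ 0 := by
    intro h
    apply h3
    rw [← aeval_xE_eq_zero V E, aeval_X]
    exact h
  obtain ⟨a, ha3, _, hJ, htr⟩ := hG E (xE V E) 3
    (fun g hg => (aeval_xE_eq_zero V E).mpr (hle hg)) hT
  refine ⟨⟨a, ha3, hJ, fun i => ?_⟩⟩
  rw [recA_eq (xE V E) (a i.1.castSucc) i.1.castSucc (fun l => htr i.1.castSucc l), cmp_C_mul]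

end

variable {V : ProjVar Idx} {E : Type} [Field E] [Algebra ℚ E] [Algebra (CR V) E]
  [IsScalarTower ℚ (CR V) E] [IsFractionRing (CR V) E] (S : GenPt V E)

namespace GenPt

/-- The nine affine coordinates. -/
noncomputable def a9 (i : I9) : E := cmp (S.a i.1.castSucc) i.2

/-- The function field of the curve. -/
noncomputable def Lf : IntermediateField ℚ E := IntermediateField.adjoin ℚ (Set.range S.a9)

omit [IsScalarTower ℚ (CR V) E] [IsFractionRing (CR V) E] in
theorem a9_mem (i : I9) : S.a9 i ∈ S.Lf := IntermediateField.subset_adjoin _ _ ⟨i, rfl⟩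

/-- The nine generators of the function field. -/
noncomputable def x (i : I9) : S.Lf := ⟨S.a9 i, S.a9_mem i⟩

theorem coe_aeval (g : MvPolynomial I9 ℚ) : ((aeval S.x g : S.Lf) : E) = aeval S.a9 g := by
  have h := MvPolynomial.aeval_algebraMap_apply (R := ℚ) (A := S.Lf) (B := E) S.x g
  exact h.symm

theorem frac (y : S.Lf) : ∃ g h : MvPolynomial I9 ℚ, aeval S.x h ≠ 0 ∧
    y = aeval S.x g / aeval S.x h := by
  obtain ⟨r, s, hrs⟩ := (IntermediateField.mem_adjoin_range_iff ℚ S.a9 (y : E)).mp y.2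
  by_cases hs : aeval S.a9 s = 0
  · refine ⟨0, 1, by simp, ?_⟩
    rw [hs, div_zero] at hrs
    rw [map_zero, zero_div]
    exact Subtype.ext hrs
  · refine ⟨r, s, ?_, ?_⟩
    · intro h
      apply hs
      rw [← S.coe_aeval, h]
      rfl
    · apply Subtype.ext
      rw [hrs]
      change _ = ((aeval S.x r / aeval S.x s : S.Lf) : E)
      rw [IntermediateField.coe_div, S.coe_aeval, S.coe_aeval]

/-- The scaling fixes the function field of the curve. -/
theorem sclE_a9 (hT : xE V E (diagIdx 3) ≠ 0) (t : ℚ) (ht : t ≠ 0) (i : I9) :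
    sclE V E t ht (S.a9 i) = S.a9 i := by
  have : CharZero E := algebraRat.charZero _
  have h1 := S.rel i
  have h2 : cmp (recA (xE V E) 3 i.1.castSucc) i.2 = aeval (xE V E) (linF i) :=
    (aeval_linF (xE V E) i).symm
  have h3 : sclE V E t ht (cmp (recA (xE V E) 3 i.1.castSucc) i.2) =
      (t : E) * cmp (recA (xE V E) 3 i.1.castSucc) i.2 := by
    rw [← cmp_map, map_recA]
    have h4 : recA (fun J => sclE V E t ht (xE V E J)) 3 i.1.castSucc =
        Cub.C (t : E) * recA (xE V E) 3 i.1.castSucc := by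
      unfold recA
      rw [← rec3_smul]
      congr 1
      funext l
      simp only [sclE_xE]
      ring
    rw [h4, cmp_C_mul]
  rw [h1] at h3
  change sclE V E t ht (23 * xE V E (diagIdx 3) * S.a9 i) = (t : E) * (23 * xE V E (diagIdx 3) * S.a9 i)
    at h3
  rw [map_mul, map_mul, sclE_xE, map_ofNat] at h3
  have ht' : (t : E) ≠ 0 := by exact_mod_cast ht
  have h5 : (23 : E) * ((t : E) * xE V E (diagIdx 3)) ≠ 0 :=
    mul_ne_zero (by norm_num) (mul_ne_zero ht' hT)
  apply mul_left_cancel₀ h5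
  rw [h3]
  ring

theorem sclE_Lf (hT : xE V E (diagIdx 3) ≠ 0) (t : ℚ) (ht : t ≠ 0) (y : S.Lf) :
    sclE V E t ht (y : E) = y := by
  obtain ⟨r, s, hrs⟩ := (IntermediateField.mem_adjoin_range_iff ℚ S.a9 (y : E)).mp y.2
  have h1 : ∀ g : MvPolynomial I9 ℚ, sclE V E t ht (aeval S.a9 g) = aeval S.a9 g := by
    intro g
    induction g using MvPolynomial.induction_on with
    | C r => rw [aeval_C, eq_ratCast, map_ratCast]
    | add p q hp hq => rw [map_add, map_add, hp, hq]
    | mul_X p i hp => rw [map_mul, map_mul, hp, aeval_X, S.sclE_a9 hT t ht i]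
  rw [hrs, map_div₀, h1, h1]

theorem transcendental (hT : xE V E (diagIdx 3) ≠ 0) : Transcendental S.Lf (xE V E (diagIdx 3)) := by
  have : CharZero E := algebraRat.charZero _
  intro halg
  obtain ⟨P, hP, hP0⟩ := halg
  have h1 : ∀ (t : ℚ), t ≠ 0 → Polynomial.aeval ((t : E) * xE V E (diagIdx 3)) P = 0 := by
    intro t ht
    have h := congrArg (sclE V E t ht) hP0
    rw [map_zero, Polynomial.aeval_def, Polynomial.hom_eval₂, sclE_xE] at h
    have h2 : (sclE V E t ht).comp (algebraMap S.Lf E) = algebraMap S.Lf E := by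
      ext y
      exact S.sclE_Lf hT t ht y
    rw [h2] at h
    exact h
  have h3 : P.map (algebraMap S.Lf E) ≠ 0 :=
    (Polynomial.map_ne_zero_iff (algebraMap S.Lf E).injective).mpr hP
  apply h3
  apply Polynomial.eq_zero_of_infinite_isRoot
  apply Set.infinite_of_injective_forall_mem
    (f := fun n : ℕ => (((n : ℚ) + 1 : ℚ) : E) * xE V E (diagIdx 3))
  · intro m n hmn
    have h4 := mul_right_cancel₀ hT hmn
    have h5 : ((m : ℚ) + 1 : ℚ) = (n : ℚ) + 1 := by exact_mod_cast h4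
    have h6 : (m : ℚ) = n := by linarith
    exact_mod_cast h6
  · intro n
    change Polynomial.IsRoot _ _
    rw [Polynomial.IsRoot.def, Polynomial.eval_map_algebraMap]
    exact h1 _ (by positivity)

/-- The recovered point with coefficients in the function field of the curve. -/
noncomputable def aL (k : Fin 4) : Cub S.Lf :=
  if h : k = 3 then 1 else ⟨S.x (⟨k.1, by
    have := k.2
    have h2 : k.1 ≠ 3 := fun h3 => h (Fin.ext h3)
    omega⟩, 0), S.x (⟨k.1, by
    have := k.2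
    have h2 : k.1 ≠ 3 := fun h3 => h (Fin.ext h3)
    omega⟩, 1), S.x (⟨k.1, by
    have := k.2
    have h2 : k.1 ≠ 3 := fun h3 => h (Fin.ext h3)
    omega⟩, 2)⟩

theorem map_aL (k : Fin 4) : Cub.map (algebraMap S.Lf E) (S.aL k) = S.a k := by
  unfold aL
  split_ifs with h
  · rw [map_one, h, S.a3]
  · have hk : k = Fin.castSucc ⟨k.1, by
      have := k.2
      have h2 : k.1 ≠ 3 := fun h3 => h (Fin.ext h3)
      omega⟩ := Fin.ext rfl
    ext
    · change cmp (S.a _) 0 = _
      rw [← hk]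
      rfl
    · change cmp (S.a _) 1 = _
      rw [← hk]
      rfl
    · change cmp (S.a _) 2 = _
      rw [← hk]
      rfl

theorem xE_mem (J : Idx) :
    xE V E J ∈ Algebra.adjoin S.Lf ({xE V E (diagIdx 3)} : Set E) := by
  have : CharZero E := algebraRat.charZero _
  have h1 := S.xJ_eq J
  have h2 : xJ S.a J = algebraMap S.Lf E (xJ S.aL J) := by
    rw [map_xJ]
    congr 1
    funext k
    exact (S.map_aL k).symm
  have h3 : xE V E J = algebraMap S.Lf E (xJ S.aL J / 6) * xE V E (diagIdx 3) := by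
    rw [map_div₀, map_ofNat, ← h2]
    field_simp
    linear_combination h1
  rw [h3]
  exact mul_mem (Subalgebra.algebraMap_mem _ _) (Algebra.subset_adjoin rfl)

theorem aeval_xE_mem (g : MvPolynomial Idx ℚ) :
    aeval (xE V E) g ∈ Algebra.adjoin S.Lf ({xE V E (diagIdx 3)} : Set E) := by
  induction g using MvPolynomial.induction_on with
  | C r =>
    rw [aeval_C, IsScalarTower.algebraMap_apply ℚ S.Lf E]
    exact Subalgebra.algebraMap_mem _ _
  | add p q hp hq => rw [map_add]; exact add_mem hp hq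
  | mul_X p i hp => rw [map_mul, aeval_X]; exact mul_mem hp (S.xE_mem i)

theorem gen (e : E) : ∃ a ∈ Algebra.adjoin S.Lf ({xE V E (diagIdx 3)} : Set E),
    ∃ b ∈ Algebra.adjoin S.Lf ({xE V E (diagIdx 3)} : Set E), b ≠ 0 ∧ e = a / b := by
  obtain ⟨b1, b2, hb2, he⟩ := IsFractionRing.div_surjective (CR V) e
  obtain ⟨g1, rfl⟩ := Ideal.Quotient.mk_surjective b1
  obtain ⟨g2, rfl⟩ := Ideal.Quotient.mk_surjective b2
  rw [← aeval_xE, ← aeval_xE] at he
  refine ⟨_, S.aeval_xE_mem g1, _, S.aeval_xE_mem g2, ?_, he.symm⟩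
  rw [aeval_xE]
  exact IsFractionRing.to_map_ne_zero_of_mem_nonZeroDivisors hb2

end GenPt

theorem trdeg_FE (V : ProjVar Idx) (E : Type) [Field E] [Algebra ℚ E] [Algebra (CR V) E]
    [IsScalarTower ℚ (CR V) E] [IsFractionRing (CR V) E] (hdim : V.dim = 1) :
    Algebra.trdeg ℚ E = 2 := by
  have h1 : Algebra.trdeg ℚ (CR V) = 2 := by
    unfold ProjVar.dim at hdim
    have h2 : Cardinal.toNat (Algebra.trdeg ℚ (MvPolynomial Idx ℚ ⧸ V.ideal)) = 2 := by omega
    have h3 := (Cardinal.toNat_eq_iff (by norm_num : (2 : ℕ) ≠ 0)).mp h2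
    exact_mod_cast h3
  have hf : FaithfulSMul (CR V) E := inferInstance
  have h2 := trdeg_add_eq ℚ (CR V) (A := E)
  have h3 : Algebra.trdeg (CR V) E = 0 := by
    have : Algebra.IsAlgebraic (CR V) E := IsLocalization.isAlgebraic E (nonZeroDivisors (CR V))
    exact trdeg_eq_zero
  rw [h1, h3, add_zero] at h2
  exact h2.symm

theorem funField0 (hG : GRecover) (V : ProjVar Idx) (E : Type) [Field E] [Algebra ℚ E]
    [Algebra (CR V) E] [IsScalarTower ℚ (CR V) E] [IsFractionRing (CR V) E]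
    (hle : XI.ideal ≤ V.ideal) (hdim : V.dim = 1)
    (h3 : (X (diagIdx 3) : MvPolynomial Idx ℚ) ∉ V.ideal) :
    ∃ (L : Type) (_ : Field L) (_ : Algebra ℚ L) (x : I9 → L), CurveField x ∧
      ∀ g : MvPolynomial I9 ℚ, aeval x g = 0 → ∀ y : Idx → ℚ, (∀ f ∈ V.ideal, aeval y f = 0) →
        y (diagIdx 3) ≠ 0 → ∀ p : I9 → ℚ,
          (∀ i : I9, cmp (recA y 3 i.1.castSucc) i.2 = 23 * y (diagIdx 3) * p i) →
          eval p g = 0 := by
  obtain ⟨S⟩ := exists_genPt V E hG hle h3
  have hT : xE V E (diagIdx 3) ≠ 0 := by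
    intro h
    apply h3
    rw [← aeval_xE_eq_zero V E, aeval_X]
    exact h
  refine ⟨S.Lf, inferInstance, inferInstance, S.x, ⟨S.frac, ?_⟩, ?_⟩
  · exact trdeg_eq_one S.Lf (xE V E (diagIdx 3)) (trdeg_FE V E hdim) (S.transcendental hT) S.gen
  · intro g hg y hy hy3 p hp
    obtain ⟨N, G, hN⟩ := dehom g
    have h1 : aeval S.a9 g = 0 := by
      rw [← S.coe_aeval, hg]
      rfl
    have h2 : aeval (xE V E) G = 0 := by
      rw [hN E (xE V E) S.a9 S.rel, h1, mul_zero]
    have h4 := hy G ((aeval_xE_eq_zero V E).mp h2)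
    rw [hN ℚ y p hp] at h4
    rw [eval_eq_aeval]
    rcases mul_eq_zero.mp h4 with h5 | h5
    · exact absurd h5 (pow_ne_zero _ (mul_ne_zero (by norm_num) hy3))
    · exact h5

/-- The function field of a curve in `X` and the polynomial relations at the rational points. -/
theorem funField (hG : GRecover) (V : ProjVar Idx) (hle : XI.ideal ≤ V.ideal) (hdim : V.dim = 1)
    (h3 : (X (diagIdx 3) : MvPolynomial Idx ℚ) ∉ V.ideal) :
    ∃ (L : Type) (_ : Field L) (_ : Algebra ℚ L) (x : I9 → L), CurveField x ∧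
      ∀ g : MvPolynomial I9 ℚ, aeval x g = 0 → ∀ y : Idx → ℚ, (∀ f ∈ V.ideal, aeval y f = 0) →
        y (diagIdx 3) ≠ 0 → ∀ p : I9 → ℚ,
          (∀ i : I9, cmp (recA y 3 i.1.castSucc) i.2 = 23 * y (diagIdx 3) * p i) →
          eval p g = 0 :=
  funField0 hG V (FractionRing (CR V)) hle hdim h3

end MP9f7b43
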