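import Mathlib

/-!
# MP_9f7b43_nt, bridge: the transcendence degree of the function field
-/

namespace MP9f7b43

open Cardinal

/-- If `E = L(T)` with `T` transcendental over `L` and `trdeg ℚ E = 2`, then `trdeg ℚ L = 1`. -/
theorem trdeg_eq_one {E : Type} [Field E] [Algebra ℚ E] (L : IntermediateField ℚ E) (T : E)
    (hE : Algebra.trdeg ℚ E = 2) (hT : Transcendental L T)
    (hgen : ∀ e : E, ∃ a ∈ Algebra.adjoin L ({T} : Set E), ∃ b ∈ Algebra.adjoin L ({T} : Set E),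
      b ≠ 0 ∧ e = a / b) : Algebra.trdeg ℚ L = 1 := by
  have halg : Algebra.IsAlgebraic (Algebra.adjoin L ({T} : Set E)) E := by
    refine ⟨fun e => ?_⟩
    obtain ⟨a, ha, b, hb, hb0, rfl⟩ := hgen e
    rw [div_eq_mul_inv]
    have h1 : IsAlgebraic (Algebra.adjoin L ({T} : Set E)) a :=
      isAlgebraic_algebraMap (R := Algebra.adjoin L ({T} : Set E)) (A := E) ⟨a, ha⟩
    have h2 : IsAlgebraic (Algebra.adjoin L ({T} : Set E)) b :=
      isAlgebraic_algebraMap (R := Algebra.adjoin L ({T} : Set E)) (A := E) ⟨b, hb⟩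
    exact h1.mul h2.inv
  have hle : Algebra.trdeg L E ≤ 1 := by
    have h := Algebra.IsAlgebraic.trdeg_le_cardinalMk L ({T} : Set E)
    simpa using h
  have hge : Algebra.trdeg L E ≠ 0 := by
    rw [trdeg_ne_zero_iff]
    exact ⟨⟨T, hT⟩⟩
  have h1 : Algebra.trdeg L E = 1 :=
    le_antisymm hle (Cardinal.one_le_iff_ne_zero.mpr hge)
  have h2 := trdeg_add_eq ℚ L (A := E)
  rw [h1, hE] at h2
  have h3 : Algebra.trdeg ℚ L < ℵ₀ := by
    refine lt_of_le_of_lt (?_ : Algebra.trdeg ℚ L ≤ 2) (by exact_mod_cast Cardinal.natCast_lt_aleph0 (n := 2))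
    rw [← h2]
    exact self_le_add_right _ _
  obtain ⟨n, hn⟩ := Cardinal.lt_aleph0.mp h3
  rw [hn] at h2 ⊢
  have h4 : n + 1 = 2 := by exact_mod_cast h2
  have h5 : n = 1 := by omega
  rw [h5, Nat.cast_one]

end MP9f7b43
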