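import Pool.Agent.Lib.MP_9f7b43_nt.G.Rec
import Pool.Agent.Lib.MP_9f7b43_nt.L.Defs
import Pool.Agent.Lib.MP_9f7b43_nt.B.Trd

/-!
# MP_9f7b43_nt, bridge: the function field of a curve in `X`

For a curve `C` in `X` which is not contained in the hyperplane `x_(3,3,3) = 0` we construct the
function field `L` with the nine generators `x : I9 → L` (the coordinates of `u/w, v/w, z/w` in
the basis `1, ρ, ρ²`), and show that all polynomial relations between them hold at all rational
points of `C` with `x_(3,3,3) ≠ 0`.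
-/

namespace MP9f7b43

open MvPolynomial C31 MP9f7b43.L

/-- The coordinates of an element of `Cub R`. -/
def cmp {R : Type*} (a : Cub R) (l : Fin 3) : R := ![a.a0, a.a1, a.a2] l

theorem cmp_map {R S : Type*} [CommRing R] [CommRing S] (φ : R →+* S) (a : Cub R) (l : Fin 3) :
    cmp (Cub.map φ a) l = φ (cmp a l) := by
  fin_cases l <;> simp [cmp]

theorem cmp_C_mul {R : Type*} [CommRing R] (c : R) (a : Cub R) (l : Fin 3) :
    cmp (Cub.C c * a) l = c * cmp a l := by
  fin_cases l <;> simp [cmp]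

theorem recA_eq {R : Type*} [CommRing R] (x : Idx → R) (a : Cub R) (k : Fin 4)
    (h : ∀ l : Fin 3, Cub.tr (Cub.rho R ^ (l : ℕ) * a) * x (diagIdx 3) =
      3 * x ![(k, l), (3, 0), (3, 0)]) : recA x 3 k = Cub.C (23 * x (diagIdx 3)) * a := by
  have h1 : recA x 3 k =
      rec3 (fun l : Fin 3 => x (diagIdx 3) * Cub.tr (Cub.rho R ^ (l : ℕ) * a)) := by
    unfold recA
    congr 1
    funext l
    rw [mul_comm (x (diagIdx 3))]
    exact (h l).symm
  rw [h1, rec3_smul, rec3_tr, ← mul_assoc, ← map_mul, mul_comm (x (diagIdx 3))]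

/-- The linear form `23 x_(3,3,3) a_i`. -/
noncomputable def linF (i : I9) : MvPolynomial Idx ℚ :=
  cmp (recA (fun J => (X J : MvPolynomial Idx ℚ)) 3 i.1.castSucc) i.2

theorem aeval_linF {A : Type*} [CommRing A] [Algebra ℚ A] (x : Idx → A) (i : I9) :
    aeval x (linF i) = cmp (recA x 3 i.1.castSucc) i.2 := by
  unfold linF
  have h : aeval x (cmp (recA (fun J => (X J : MvPolynomial Idx ℚ)) 3 i.1.castSucc) i.2) =
      cmp (Cub.map ((aeval x : MvPolynomial Idx ℚ →ₐ[ℚ] A) : MvPolynomial Idx ℚ →+* A)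
        (recA (fun J => (X J : MvPolynomial Idx ℚ)) 3 i.1.castSucc)) i.2 := (cmp_map _ _ _).symm
  rw [h, map_recA]
  congr 2
  funext J
  exact aeval_X x J

/-- Homogenisation of a polynomial in the nine affine coordinates. -/
theorem dehom (g : MvPolynomial I9 ℚ) : ∃ (N : ℕ) (G : MvPolynomial Idx ℚ),
    ∀ (A : Type) [CommRing A] [Algebra ℚ A] (x : Idx → A) (a : I9 → A),
      (∀ i : I9, cmp (recA x 3 i.1.castSucc) i.2 = 23 * x (diagIdx 3) * a i) →
      aeval x G = (23 * x (diagIdx 3)) ^ N * aeval a g := by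
  induction g using MvPolynomial.induction_on with
  | C r => exact ⟨0, C r, fun A _ _ x a _ => by simp⟩
  | add g h hg hh =>
    obtain ⟨N1, G1, h1⟩ := hg
    obtain ⟨N2, G2, h2⟩ := hh
    refine ⟨N1 + N2, G1 * (C 23 * X (diagIdx 3)) ^ N2 + G2 * (C 23 * X (diagIdx 3)) ^ N1, ?_⟩
    intro A _ _ x a hx
    rw [map_add, map_mul, map_mul, h1 A x a hx, h2 A x a hx, map_add, map_pow, map_pow, map_mul,
      aeval_X, aeval_C, map_ofNat]
    ring
  | mul_X g i hg =>
    obtain ⟨N, G, h1⟩ := hg
    refine ⟨N + 1, G * linF i, ?_⟩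
    intro A _ _ x a hx
    rw [map_mul, h1 A x a hx, aeval_linF, hx i, map_mul, aeval_X]
    ring

section Scale

variable (V : ProjVar Idx)

/-- The coordinate ring of the cone. -/
abbrev CR : Type := MvPolynomial Idx ℚ ⧸ V.ideal

theorem aeval_mk (f : MvPolynomial Idx ℚ) :
    aeval (fun J => (Ideal.Quotient.mk V.ideal) (X J)) f = Ideal.Quotient.mk V.ideal f := by
  have h := aeval_unique (Ideal.Quotient.mkₐ ℚ V.ideal)
  exact (DFunLike.congr_fun h f).symm

theorem aeval_mk_mem (f : MvPolynomial Idx ℚ) (hf : f ∈ V.ideal) :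
    aeval (fun J => (Ideal.Quotient.mk V.ideal) (X J)) f = 0 := by
  rw [aeval_mk]
  exact Ideal.Quotient.eq_zero_iff_mem.mpr hf

/-- Multiplication of all coordinates by `t`, on the coordinate ring. -/
noncomputable def scl (t : ℚ) : CR V →ₐ[ℚ] CR V :=
  Ideal.Quotient.liftₐ V.ideal
    (aeval fun J => algebraMap ℚ (CR V) t * Ideal.Quotient.mk V.ideal (X J)) (fun g hg =>
      aeval_smul_eq_zero V _ _ (aeval_mk_mem V) g hg)

theorem scl_X (t : ℚ) (J : Idx) : scl V t (Ideal.Quotient.mk V.ideal (X J)) =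
    algebraMap ℚ (CR V) t * Ideal.Quotient.mk V.ideal (X J) := by
  unfold scl
  change (Ideal.Quotient.liftₐ V.ideal _ _) ((Ideal.Quotient.mkₐ ℚ V.ideal) (X J)) = _
  rw [Ideal.Quotient.liftₐ_apply]
  change Ideal.Quotient.lift V.ideal _ _ (Ideal.Quotient.mk V.ideal (X J)) = _
  rw [Ideal.Quotient.lift_mk]
  exact aeval_X _ J

theorem scl_scl (t : ℚ) (ht : t ≠ 0) (b : CR V) : scl V t⁻¹ (scl V t b) = b := by
  have h : (scl V t⁻¹).comp (scl V t) = AlgHom.id ℚ (CR V) := by
    apply Ideal.Quotient.algHom_ext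
    apply MvPolynomial.algHom_ext
    intro J
    change scl V t⁻¹ (scl V t (Ideal.Quotient.mk V.ideal (X J))) = Ideal.Quotient.mk V.ideal (X J)
    rw [scl_X, map_mul, scl_X, AlgHom.commutes, ← mul_assoc, ← map_mul, mul_inv_cancel₀ ht,
      map_one, one_mul]
  exact DFunLike.congr_fun h b

theorem scl_injective (t : ℚ) (ht : t ≠ 0) : Function.Injective (scl V t) := by
  intro a b h
  rw [← scl_scl V t ht a, ← scl_scl V t ht b, h]

end Scale

section Field

variable (V : ProjVar Idx)

instance instDomainCR : IsDomain (CR V) :=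
  (Ideal.Quotient.isDomain_iff_prime V.ideal).mpr V.isPrime

variable (E : Type) [Field E] [Algebra ℚ E] [Algebra (CR V) E] [IsScalarTower ℚ (CR V) E]
  [IsFractionRing (CR V) E]

/-- The generic point of the cone. -/
noncomputable def xE (J : Idx) : E := algebraMap (CR V) E (Ideal.Quotient.mk V.ideal (X J))

omit [IsFractionRing (CR V) E] in
theorem aeval_xE (g : MvPolynomial Idx ℚ) :
    aeval (xE V E) g = algebraMap (CR V) E (Ideal.Quotient.mk V.ideal g) := by
  rw [← aeval_mk]
  have h := MvPolynomial.aeval_algebraMap_apply (R := ℚ) (A := CR V) (B := E)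
    (fun J => Ideal.Quotient.mk V.ideal (X J)) g
  exact h

theorem aeval_xE_eq_zero {g : MvPolynomial Idx ℚ} : aeval (xE V E) g = 0 ↔ g ∈ V.ideal := by
  rw [aeval_xE, IsFractionRing.to_map_eq_zero_iff, Ideal.Quotient.eq_zero_iff_mem]

theorem sclE_inj (t : ℚ) (ht : t ≠ 0) : Function.Injective
    ((algebraMap (CR V) E).comp (scl V t : CR V →+* CR V)) :=
  (IsFractionRing.injective (CR V) E).comp (scl_injective V t ht)

/-- Multiplication of all coordinates by `t`, on the function field of the cone. -/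
noncomputable def sclE (t : ℚ) (ht : t ≠ 0) : E →+* E :=
  IsFractionRing.lift (A := CR V) (K := E) (L := E) (sclE_inj V E t ht)

theorem sclE_algebraMap (t : ℚ) (ht : t ≠ 0) (b : CR V) :
    sclE V E t ht (algebraMap (CR V) E b) = algebraMap (CR V) E (scl V t b) :=
  IsFractionRing.lift_algebraMap (sclE_inj V E t ht) b

theorem sclE_xE (t : ℚ) (ht : t ≠ 0) (J : Idx) : sclE V E t ht (xE V E J) = (t : E) * xE V E J := by
  unfold xE
  rw [sclE_algebraMap, scl_X, map_mul, ← IsScalarTower.algebraMap_apply]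
  congr 1
  exact eq_ratCast _ t

end Field

end MP9f7b43
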