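import Pool.Agent.Lib.MP_9f7b43_nt.B.Bridge
import Pool.Agent.Lib.MP_9f7b43_nt.G.Fine

/-!
# MP_9f7b43_nt, bridge: `LStmt → LCurve`
-/

namespace MP9f7b43

/-- From part L to the statement on curves. -/
theorem lCurve_of (h : L.LStmt) : LCurve := bridge gRecover lFine h

end MP9f7b43
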